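import Pool.Agent.H335PN.All

set_option autoImplicit false

/-!
# Two-generated verbally closed subgroups of free polynilpotent groups

Full positive answer to Q1 of MP_a78553_al: for every rank `r ≥ 2` and every class
`(1, c_1, ..., c_l)` with `l ≥ 1` and all `c_i ≥ 1`, a two-generated subgroup of the free
polynilpotent group is a retract if and only if it is algebraically closed, if and only if it is
verbally closed.

The proof constructs test words of the free polynilpotent groups of rank two. With
`N = N_{l-1}`, `Γ = F_2 / N`, the test word is `[x, [y, s]]` with `s` in `N` a product of powers of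
many conjugates of an element outside `N'`, chosen such that its Fox derivative has very few left
divisors of the form `g - 1` in `ℤ[Γ]`. Ingredients: Magnus and Shmelkin embeddings, residual
finiteness-`p`, unique products and the Ore condition for `ℤ[Γ]` by Følner sets.
-/

namespace Pool.Agent.Results.MP_a78553_al.TwoGenerated

open Pool.Agent.H335PN

/-- For all `r ≥ 2`, `l ≥ 1`, `c_1, ..., c_l ≥ 1` and every two-generated subgroup `H` of the free
polynilpotent group `PN r c l` of rank `r` and class `(1, c_1, ..., c_l)` (with `c i` standing for
`c_{i+1}`): `H` is a retract iff it is algebraically closed iff it is verbally closed. -/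
theorem result : ∀ (r l : ℕ) (c : ℕ → ℕ), 2 ≤ r → 1 ≤ l → (∀ i, i < l → 1 ≤ c i) →
    ∀ H : Subgroup (PN r c l), (∃ a b, H = Subgroup.closure {a, b}) →
      (IsRetract H ↔ AlgClosed H) ∧ (AlgClosed H ↔ VerbClosed H) :=
  x_FINAL

end Pool.Agent.Results.MP_a78553_al.TwoGenerated
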